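import Pool.Agent.KS6_46.DE.Osc

set_option autoImplicit false

open MeasureTheory Filter Topology Set

namespace Pool.Agent.Results.MP_5ce401_an.AlmostConstant

open Pool.Agent.KS6_46.DE

/-- `x` is a solution of `x'(t) + a(t) x(h(t)) = 0`, `t ≥ t₀`: on `(-∞, t₀]` it is a continuous
bounded initial function, and on `[t₀, ∞)` it is differentiable (one-sidedly at `t₀`) and satisfies
the equation. -/
structure IsSolution (t₀ : ℝ) (a h x : ℝ → ℝ) : Prop where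
  continuousOn : ContinuousOn x (Iic t₀)
  bounded : ∃ C, ∀ t ≤ t₀, |x t| ≤ C
  ode : ∀ t, t₀ ≤ t → HasDerivWithinAt x (-(a t * x (h t))) (Ici t₀) t

/-- The equation `x'(t) + a(t) x(h(t)) = 0`, `t ≥ t₀`, is stable. -/
def IsStable (t₀ : ℝ) (a h : ℝ → ℝ) : Prop :=
  ∀ ε : ℝ, 0 < ε → ∃ δ : ℝ, 0 < δ ∧ ∀ x : ℝ → ℝ, IsSolution t₀ a h x →
    (∀ t ≤ t₀, |x t| ≤ δ) → ∀ t, t₀ ≤ t → |x t| < ε

/-- The equation `x'(t) + a(t) x(h(t)) = 0`, `t ≥ t₀`, is asymptotically stable. -/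
def IsAS (t₀ : ℝ) (a h : ℝ → ℝ) : Prop :=
  IsStable t₀ a h ∧ ∀ x : ℝ → ℝ, IsSolution t₀ a h x → Tendsto x atTop (𝓝 0)

/-- The standing assumptions on the coefficient `a` and the argument `h` on `[t₀, ∞)`. -/
structure Admissible (t₀ : ℝ) (a h : ℝ → ℝ) : Prop where
  continuousOn_a : ContinuousOn a (Ici t₀)
  continuousOn_h : ContinuousOn h (Ici t₀)
  bounded_a : ∃ A, ∀ t, t₀ ≤ t → |a t| ≤ A
  bounded_delay : ∃ τ, ∀ t, t₀ ≤ t → 0 ≤ t - h t ∧ t - h t ≤ τ

/-- The coefficient and the argument with the wanted properties. -/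
theorem exists_pair (c τ l η t₀ : ℝ) (hc : 0 < c) (hτ : 0 < τ) (hl : 0 < l) (hη : 0 < η) :
    ∃ a h : ℝ → ℝ, Admissible t₀ a h ∧
      (∀ t, |(∫ s in h t..t, a s) - c| ≤ η) ∧ (∀ t, |t - h t - τ| ≤ η) ∧
      ∀ δ : ℝ, 0 < δ → ∃ x : ℝ → ℝ, IsSolution t₀ a h x ∧ (∀ t ≤ t₀, |x t| ≤ δ) ∧
        ∃ b : ℝ, 0 < b ∧ ∀ t, b * Real.exp (l * t) ≤ x t := by
  have hD : 0 < c / τ := by positivity
  -- the amplitude
  obtain ⟨e, he0, he1, he2, he3⟩ : ∃ e : ℝ, 0 < e ∧ e ≤ 1 / 2 ∧ 2 * e / l ≤ min η τ ∧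
      c / τ * (2 * e / l) ≤ η / 2 := by
    have hmin : 0 < min η τ := lt_min hη hτ
    refine ⟨min (1 / 2) (min (l * min η τ / 2) (l * η / 4 / (c / τ))), ?_, ?_, ?_, ?_⟩
    · positivity
    · exact min_le_left _ _
    · have h1 : min (1 / 2) (min (l * min η τ / 2) (l * η / 4 / (c / τ))) ≤
          l * min η τ / 2 := (min_le_right _ _).trans (min_le_left _ _)
      rw [div_le_iff₀ hl]
      linarith
    · have h1 : min (1 / 2) (min (l * min η τ / 2) (l * η / 4 / (c / τ))) ≤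
          l * η / 4 / (c / τ) := (min_le_right _ _).trans (min_le_right _ _)
      rw [le_div_iff₀ hD] at h1
      have h2 : c / τ * (2 * min (1 / 2) (min (l * min η τ / 2) (l * η / 4 / (c / τ))) / l) =
        2 * (min (1 / 2) (min (l * min η τ / 2) (l * η / 4 / (c / τ))) * (c / τ)) / l := by
        ring
      rw [h2, div_le_iff₀ hl]
      linarith
  -- the parameters do not depend on the frequency, apart from the frequency itself
  let P₀ : Par := ⟨l, τ, c / τ, e, 1, hl, hτ, hD, he0, he1, one_pos⟩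
  obtain ⟨ν, hν0, hν1, hν2⟩ : ∃ ν : ℝ, 0 < ν ∧ 4 * P₀.κ ≤ ν ∧ P₀.err / ν ≤ η / 2 := by
    have h1 := P₀.κ_pos
    have h2 : 0 ≤ |P₀.err| := abs_nonneg _
    refine ⟨max (4 * P₀.κ) (2 * |P₀.err| / η), ?_, le_max_left _ _, ?_⟩
    · exact lt_max_of_lt_left (by positivity)
    · have h3 : 2 * |P₀.err| / η ≤ max (4 * P₀.κ) (2 * |P₀.err| / η) := le_max_right _ _
      have h4 : 0 < max (4 * P₀.κ) (2 * |P₀.err| / η) := lt_max_of_lt_left (by positivity)
      rw [div_le_iff₀ h4]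
      rw [div_le_iff₀ hη] at h3
      have h5 := le_abs_self P₀.err
      linarith
  let P : Par := ⟨l, τ, c / τ, e, ν, hl, hτ, hD, he0, he1, hν0⟩
  have hPκ : P.κ = P₀.κ := rfl
  have hPe : P.err = P₀.err := rfl
  have hν : 4 * P.κ ≤ P.ν := hν1
  have hdel : ∀ t, |t - P.hh t - τ| ≤ 2 * e / l := by
    intro t
    have := P.del_bound t
    have h0 : t - P.hh t = P.del t := by
      unfold Par.hh
      ring
    rw [h0]
    exact this
  refine ⟨P.aa, P.hh, ⟨P.continuous_aa.continuousOn, P.continuous_hh.continuousOn,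
    ⟨_, fun t _ => P.aa_bound hν t⟩, ⟨2 * τ, fun t _ => ?_⟩⟩, fun t => ?_, fun t => ?_, ?_⟩
  · have h1 := abs_le.1 ((hdel t).trans (he2.trans (min_le_right _ _)))
    constructor <;> linarith [h1.1, h1.2]
  · have h1 := P.integral_bound hν t
    rw [hPe] at h1
    have h2 : P.err / P.ν ≤ η / 2 := hν2
    have h3 : |P.D * P.del t - c| ≤ η / 2 := by
      have h4 : P.D * P.del t - c = c / τ * (P.del t - τ) := by
        show c / τ * P.del t - c = _
        field_simp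
      rw [h4, abs_mul, abs_of_pos hD]
      have h5 : |P.del t - τ| ≤ 2 * e / l := P.del_bound t
      calc c / τ * |P.del t - τ| ≤ c / τ * (2 * e / l) := by gcongr
        _ ≤ η / 2 := he3
    calc |(∫ s in P.hh t..t, P.aa s) - c| =
        |((∫ s in P.hh t..t, P.aa s) - P.D * P.del t) + (P.D * P.del t - c)| := by
          congr 1; ring
      _ ≤ _ := abs_add_le _ _
      _ ≤ η / 2 + η / 2 := add_le_add (h1.trans hν2) h3
      _ = η := by ring
  · exact (hdel t).trans (he2.trans (min_le_left _ _))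
  · intro δ hδ
    have hκ := P.κ_pos
    have hq : 0 < P.κ / P.ν := div_pos hκ P.hν
    set E := Real.exp (l * t₀ + P.κ / P.ν) with hE
    have hE0 : 0 < E := Real.exp_pos _
    have hbd : ∀ t ≤ t₀, |P.xx (δ / E) t| ≤ δ := by
      intro t ht
      unfold Par.xx
      rw [abs_mul, abs_of_pos (by positivity), abs_of_pos (Real.exp_pos _)]
      have : Real.exp (P.l * t + P.κ / P.ν * Real.sin (P.ν * t)) ≤ E := by
        rw [hE]
        apply Real.exp_le_exp.2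
        have h1 := Real.sin_le_one (P.ν * t)
        have h2 : P.l * t ≤ l * t₀ := mul_le_mul_of_nonneg_left ht hl.le
        nlinarith
      calc δ / E * Real.exp (P.l * t + P.κ / P.ν * Real.sin (P.ν * t)) ≤ δ / E * E := by gcongr
        _ = δ := by field_simp
    refine ⟨P.xx (δ / E), ⟨?_, ⟨δ, hbd⟩, ?_⟩, hbd, δ / E * Real.exp (-(P.κ / P.ν)),
      by positivity, ?_⟩
    · apply Continuous.continuousOn
      unfold Par.xx
      fun_prop
    · intro t _
      exact (P.hasDerivAt_xx _ t).hasDerivWithinAt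
    · intro t
      unfold Par.xx
      rw [mul_assoc, ← Real.exp_add]
      apply mul_le_mul_of_nonneg_left _ (by positivity)
      apply Real.exp_le_exp.2
      have h1 := Real.neg_one_le_sin (P.ν * t)
      have h2 : P.l = l := rfl
      rw [h2]
      nlinarith

lemma not_isStable {t₀ l : ℝ} (hl : 0 < l) {a h : ℝ → ℝ} (H : ∀ δ : ℝ, 0 < δ → ∃ x : ℝ → ℝ,
    IsSolution t₀ a h x ∧ (∀ t ≤ t₀, |x t| ≤ δ) ∧
      ∃ b : ℝ, 0 < b ∧ ∀ t, b * Real.exp (l * t) ≤ x t) :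
    ¬ IsStable t₀ a h := by
  intro hst
  obtain ⟨δ, hδ, h1⟩ := hst 1 one_pos
  obtain ⟨x, hx, hx1, b, hb, hx2⟩ := H δ hδ
  have h3 : Tendsto (fun t : ℝ => b * Real.exp (l * t)) atTop atTop := by
    apply Tendsto.const_mul_atTop hb
    exact Real.tendsto_exp_atTop.comp (tendsto_id.const_mul_atTop hl)
  obtain ⟨t, ht1, ht2⟩ := ((h3.eventually_ge_atTop 1).and (eventually_ge_atTop t₀)).exists
  have := h1 x hx hx1 t ht2
  have h4 := hx2 t
  have h5 := le_abs_self (x t)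
  linarith

/-- **No two-sided condition on `∫_{h(t)}^t a` gives stability, not even for almost constant
delays.**

(1) For all `c, τ, l, η > 0` and every `t₀` there is an admissible pair `(a, h)` (continuous, `a`
bounded) with `|∫_{h(t)}^t a - c| ≤ η` and `|t - h(t) - τ| ≤ η` for ALL `t`, such that the equation
`x'(t) + a(t) x(h(t)) = 0` is not stable and has, for every `δ > 0`, a solution which is at most
`δ` on `(-∞, t₀]` and at least `b e^(l t)` for all `t`, for some `b > 0`.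

(2) In particular for all `0 < m < M` there is an admissible pair with `m ≤ ∫_{h(t)}^t a ≤ M` for
all `t` which is not stable, and no constant `M` as in Q1 exists. -/
theorem result :
    (∀ c τ l η t₀ : ℝ, 0 < c → 0 < τ → 0 < l → 0 < η →
      ∃ a h : ℝ → ℝ, Admissible t₀ a h ∧
        (∀ t, |(∫ s in h t..t, a s) - c| ≤ η) ∧ (∀ t, |t - h t - τ| ≤ η) ∧
        ¬ IsStable t₀ a h ∧
        ∀ δ : ℝ, 0 < δ → ∃ x : ℝ → ℝ, IsSolution t₀ a h x ∧ (∀ t ≤ t₀, |x t| ≤ δ) ∧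
          ∃ b : ℝ, 0 < b ∧ ∀ t, b * Real.exp (l * t) ≤ x t) ∧
    (∀ m M t₀ : ℝ, 0 < m → m < M → ∃ a h : ℝ → ℝ, Admissible t₀ a h ∧
      (∀ t, m ≤ (∫ s in h t..t, a s) ∧ (∫ s in h t..t, a s) ≤ M) ∧ ¬ IsStable t₀ a h) ∧
    ¬ ∃ M : ℝ, 0 < M ∧ ∀ (t₀ : ℝ) (a h : ℝ → ℝ), Admissible t₀ a h →
      0 < liminf (fun t => ∫ s in h t..t, a s) atTop →
      limsup (fun t => ∫ s in h t..t, a s) atTop < M → IsAS t₀ a h := by
  have h1 : ∀ c τ l η t₀ : ℝ, 0 < c → 0 < τ → 0 < l → 0 < η →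
      ∃ a h : ℝ → ℝ, Admissible t₀ a h ∧
        (∀ t, |(∫ s in h t..t, a s) - c| ≤ η) ∧ (∀ t, |t - h t - τ| ≤ η) ∧
        ¬ IsStable t₀ a h ∧
        ∀ δ : ℝ, 0 < δ → ∃ x : ℝ → ℝ, IsSolution t₀ a h x ∧ (∀ t ≤ t₀, |x t| ≤ δ) ∧
          ∃ b : ℝ, 0 < b ∧ ∀ t, b * Real.exp (l * t) ≤ x t := by
    intro c τ l η t₀ hc hτ hl hη
    obtain ⟨a, h, h1, h2, h3, h4⟩ := exists_pair c τ l η t₀ hc hτ hl hη
    exact ⟨a, h, h1, h2, h3, not_isStable hl h4, h4⟩
  have h2 : ∀ m M t₀ : ℝ, 0 < m → m < M → ∃ a h : ℝ → ℝ, Admissible t₀ a h ∧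
      (∀ t, m ≤ (∫ s in h t..t, a s) ∧ (∫ s in h t..t, a s) ≤ M) ∧ ¬ IsStable t₀ a h := by
    intro m M t₀ hm hmM
    obtain ⟨a, h, a1, a2, _, a4, _⟩ := h1 ((m + M) / 2) 1 1 ((M - m) / 2) t₀ (by linarith)
      one_pos one_pos (by linarith)
    refine ⟨a, h, a1, fun t => ?_, a4⟩
    have := abs_le.1 (a2 t)
    constructor <;> linarith [this.1, this.2]
  refine ⟨h1, h2, ?_⟩
  rintro ⟨M, hM, H⟩
  obtain ⟨a, h, a1, a2, a3⟩ := h2 (M / 4) (M / 2) 0 (by linarith) (by linarith)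
  have hbda : IsBoundedUnder (· ≤ ·) atTop (fun t => ∫ s in h t..t, a s) :=
    isBoundedUnder_of ⟨M / 2, fun t => (a2 t).2⟩
  have hbdb : IsBoundedUnder (· ≥ ·) atTop (fun t => ∫ s in h t..t, a s) :=
    isBoundedUnder_of ⟨M / 4, fun t => (a2 t).1⟩
  refine a3 (H 0 a h a1 ?_ ?_).1
  · have : M / 4 ≤ liminf (fun t => ∫ s in h t..t, a s) atTop :=
      le_liminf_of_le hbda.isCoboundedUnder_ge (Eventually.of_forall fun t => (a2 t).1)
    linarith
  · have : limsup (fun t => ∫ s in h t..t, a s) atTop ≤ M / 2 :=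
      limsup_le_of_le hbdb.isCoboundedUnder_le (Eventually.of_forall fun t => (a2 t).2)
    linarith

end Pool.Agent.Results.MP_5ce401_an.AlmostConstant
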